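import Pool.Agent.H3.UF.CBT

/-!
# Row CBD of the board uf_modules (MP_c59857_nt): dilations of the cubes
-/

set_option autoImplicit false

open Finset Filter Topology

namespace Pool.Agent.H3.UF

open Pool.Agent.H91.LF Pool.Agent.H31.UF

theorem vx_dil {k : ℕ} (p : ℤ) (z : Fin (k + 1) → ℤ) (s : Finset (Fin k)) :
    vx (fun i => p * z i) s = p * vx z s := by
  simp only [vx, mul_add, Finset.mul_sum]

theorem pf_CBD : T_CBD := by
  classical
  intro k N p f hp
  have hpZ : (0 : ℤ) < p := by exact_mod_cast hp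
  have key : ∀ z : Fin (k + 1) → ℤ, (fun i => (p : ℤ) * z i) ∈ CB k N ↔ z ∈ CB k (N / p) := by
    intro z
    rw [mem_CB, mem_CB]
    refine forall_congr' fun s => ?_
    rw [vx_dil, Int.natCast_div]
    constructor
    · rintro ⟨h1, h2⟩
      refine ⟨?_, ?_⟩
      · by_contra hc
        have h3 : vx z s ≤ 0 := by omega
        have h4 : (p : ℤ) * vx z s ≤ 0 := mul_nonpos_of_nonneg_of_nonpos hpZ.le h3
        omega
      · rw [Int.le_ediv_iff_mul_le hpZ, mul_comm]
        exact h2
    · rintro ⟨h1, h2⟩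
      rw [Int.le_ediv_iff_mul_le hpZ, mul_comm] at h2
      refine ⟨?_, h2⟩
      nlinarith
  have hdiv : ∀ z : Fin (k + 1) → ℤ, (∀ i, (p : ℤ) ∣ z i) →
      (fun i => (p : ℤ) * (z i / p)) = z := by
    intro z hz
    funext i
    exact Int.mul_ediv_cancel' (hz i)
  rw [← Finset.sum_filter]
  refine Finset.sum_bij' (fun z _ => fun i => z i / p) (fun z _ => fun i => (p : ℤ) * z i)
    ?_ ?_ ?_ ?_ ?_
  · intro z hz
    rw [Finset.mem_filter] at hz
    rw [← key, hdiv z hz.2]
    exact hz.1
  · intro z hz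
    rw [Finset.mem_filter]
    exact ⟨(key z).2 hz, fun i => dvd_mul_right _ _⟩
  · intro z hz
    exact hdiv z (Finset.mem_filter.1 hz).2
  · intro z _
    funext i
    exact Int.mul_ediv_cancel_left _ hpZ.ne'
  · intro z _
    rfl

end Pool.Agent.H3.UF
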