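import Pool.Agent.H31.UF.Targets

/-!
# Rows CBT and CBD of the board uf_modules (MP_c59857_nt): translations and dilations of the cubes
-/

set_option autoImplicit false

open Finset Filter Topology

namespace Pool.Agent.H3.UF

open Pool.Agent.H91.LF Pool.Agent.H31.UF

theorem mem_CB {k N : ℕ} {z : Fin (k + 1) → ℤ} :
    z ∈ CB k N ↔ ∀ s, 1 ≤ vx z s ∧ vx z s ≤ N := by
  unfold CB
  rw [Finset.mem_filter, Fintype.mem_piFinset]
  refine ⟨fun h => h.2, fun h => ⟨fun i => ?_, h⟩⟩
  have h0 := h ∅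
  have e0 : vx z ∅ = z 0 := by simp [vx]
  rw [e0] at h0
  rw [Finset.mem_Icc]
  refine Fin.cases ?_ (fun i => ?_) i
  · constructor <;> omega
  · have h1 := h {i}
    have e1 : vx z {i} = z 0 + z i.succ := by simp [vx]
    rw [e1] at h1
    constructor <;> omega

theorem CB_coord {k N : ℕ} {z : Fin (k + 1) → ℤ} (hz : z ∈ CB k N) (i : Fin (k + 1)) :
    -(N : ℤ) ≤ z i ∧ z i ≤ N := by
  unfold CB at hz
  rw [Finset.mem_filter, Fintype.mem_piFinset] at hz
  exact Finset.mem_Icc.1 (hz.1 i)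

/-- a set of cubes which are determined by their edges -/
theorem card_le {k N : ℕ} (B : Finset (Fin (k + 1) → ℤ)) (h1 : ∀ z ∈ B, z ∈ CB k N)
    (h2 : ∀ z ∈ B, ∀ z' ∈ B, (∀ i : Fin k, z i.succ = z' i.succ) → z 0 = z' 0) :
    (B.card : ℝ) ≤ (2 * N + 1) ^ k := by
  have h3 : B.card ≤ (Fintype.piFinset (fun _ : Fin k => Finset.Icc (-(N : ℤ)) N)).card := by
    refine Finset.card_le_card_of_injOn (fun z i => z i.succ) (fun z hz => ?_) ?_
    · rw [Finset.mem_coe, Fintype.mem_piFinset]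
      intro i
      exact Finset.mem_Icc.2 (CB_coord (h1 z hz) _)
    · intro z hz z' hz' h
      have h4 : ∀ i : Fin k, z i.succ = z' i.succ := fun i => congrFun h i
      funext i
      refine Fin.cases ?_ (fun i => ?_) i
      · exact h2 z hz z' hz' h4
      · exact h4 i
  have h4 : (Fintype.piFinset (fun _ : Fin k => Finset.Icc (-(N : ℤ)) N)).card =
      (2 * N + 1) ^ k := by
    rw [Fintype.card_piFinset_const, Int.card_Icc]
    congr 1
    omega
  rw [h4] at h3
  exact_mod_cast h3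

open Classical in
/-- translation of a sum over a finite set -/
theorem shift_le {d : ℕ} (E : Finset (Fin d → ℤ)) (v : Fin d → ℤ) (f : (Fin d → ℤ) → ℝ) (F : ℝ)
    (hF : ∀ z, |f z| ≤ F) (n1 n2 : ℝ)
    (h1 : ((E.filter (fun z => ¬ z + v ∈ E)).card : ℝ) ≤ n1)
    (h2 : ((E.filter (fun z => ¬ z - v ∈ E)).card : ℝ) ≤ n2) :
    |∑ z ∈ E, f (z + v) - ∑ z ∈ E, f z| ≤ (n1 + n2) * F := by
  have hF0 : 0 ≤ F := (abs_nonneg _).trans (hF 0)
  have e1 := Finset.sum_filter_add_sum_filter_not E (fun z => z + v ∈ E) (fun z => f (z + v))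
  have e2 := Finset.sum_filter_add_sum_filter_not E (fun z => z - v ∈ E) f
  have e3 : ∑ z ∈ E.filter (fun z => z + v ∈ E), f (z + v) =
      ∑ z ∈ E.filter (fun z => z - v ∈ E), f z := by
    refine Finset.sum_bij' (fun z _ => z + v) (fun z _ => z - v) ?_ ?_ ?_ ?_ ?_
    · intro z hz
      rw [Finset.mem_filter] at hz ⊢
      exact ⟨hz.2, by rw [add_sub_cancel_right]; exact hz.1⟩
    · intro z hz
      rw [Finset.mem_filter] at hz ⊢
      exact ⟨hz.2, by rw [sub_add_cancel]; exact hz.1⟩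
    · intro z _
      exact add_sub_cancel_right z v
    · intro z _
      exact sub_add_cancel z v
    · intro z _
      rfl
  have b1 : |∑ z ∈ E.filter (fun z => ¬ z + v ∈ E), f (z + v)| ≤ n1 * F := by
    refine (Finset.abs_sum_le_sum_abs _ _).trans ?_
    refine (Finset.sum_le_card_nsmul _ _ F fun z _ => hF _).trans ?_
    rw [nsmul_eq_mul]
    exact mul_le_mul_of_nonneg_right h1 hF0
  have b2 : |∑ z ∈ E.filter (fun z => ¬ z - v ∈ E), f z| ≤ n2 * F := by
    refine (Finset.abs_sum_le_sum_abs _ _).trans ?_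
    refine (Finset.sum_le_card_nsmul _ _ F fun z _ => hF _).trans ?_
    rw [nsmul_eq_mul]
    exact mul_le_mul_of_nonneg_right h2 hF0
  rw [← e1, ← e2, e3]
  have e4 : ∀ a b c : ℝ, a + b - (a + c) = b - c := fun a b c => by ring
  rw [e4]
  refine (abs_sub _ _).trans ?_
  rw [add_mul]
  exact add_le_add b1 b2

theorem vx_add {k : ℕ} (z v : Fin (k + 1) → ℤ) (s : Finset (Fin k)) :
    vx (z + v) s = vx z s + vx v s := by
  simp only [vx, Pi.add_apply, Finset.sum_add_distrib]
  ring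

theorem vx_sub {k : ℕ} (z v : Fin (k + 1) → ℤ) (s : Finset (Fin k)) :
    vx (z - v) s = vx z s - vx v s := by
  simp only [vx, Pi.sub_apply, Finset.sum_sub_distrib]
  ring

theorem vx_single_zero {k : ℕ} (c : ℤ) (s : Finset (Fin k)) :
    vx (Pi.single 0 c : Fin (k + 1) → ℤ) s = c := by
  simp only [vx, Pi.single_eq_same]
  rw [Finset.sum_eq_zero, add_zero]
  intro i _
  exact Pi.single_eq_of_ne (Fin.succ_ne_zero i) _

theorem vx_single {k : ℕ} (i : Fin (k + 1)) (s : Finset (Fin k)) :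
    vx (Pi.single i 1 : Fin (k + 1) → ℤ) s = 0 ∨ vx (Pi.single i 1 : Fin (k + 1) → ℤ) s = 1 := by
  refine Fin.cases ?_ (fun l => ?_) i
  · exact Or.inr (vx_single_zero 1 s)
  · have h0 : (Pi.single l.succ 1 : Fin (k + 1) → ℤ) 0 = 0 :=
      Pi.single_eq_of_ne (Fin.succ_ne_zero l).symm _
    have h1 : ∀ j : Fin k, (Pi.single l.succ 1 : Fin (k + 1) → ℤ) j.succ =
        if j = l then 1 else 0 := by
      intro j
      by_cases h : j = l
      · subst h
        rw [if_pos rfl, Pi.single_eq_same]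
      · rw [if_neg h, Pi.single_eq_of_ne (fun h' => h (Fin.succ_injective _ h'))]
    simp only [vx, h0, h1, zero_add]
    rw [Finset.sum_ite_eq']
    by_cases h : l ∈ s
    · exact Or.inr (if_pos h)
    · exact Or.inl (if_neg h)

open Classical in
/-- the number of the cubes with a vertex at a given place -/
theorem card_vertex (k N : ℕ) (c : ℤ) (B : Finset (Fin (k + 1) → ℤ))
    (hB : ∀ z ∈ B, z ∈ CB k N ∧ ∃ s, vx z s = c) : (B.card : ℝ) ≤ 2 ^ k * (2 * N + 1) ^ k := by
  have h1 : B ⊆ (Finset.univ : Finset (Finset (Fin k))).biUnion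
      (fun s => B.filter (fun z => vx z s = c)) := by
    intro z hz
    obtain ⟨s, hs⟩ := (hB z hz).2
    exact Finset.mem_biUnion.2 ⟨s, Finset.mem_univ s, Finset.mem_filter.2 ⟨hz, hs⟩⟩
  have h2 : ∀ s ∈ (Finset.univ : Finset (Finset (Fin k))),
      ((B.filter (fun z => vx z s = c)).card : ℝ) ≤ (2 * N + 1) ^ k := by
    intro s _
    refine card_le _ (fun z hz => (hB z (Finset.mem_filter.1 hz).1).1) ?_
    intro z hz z' hz' h
    have h3 := (Finset.mem_filter.1 hz).2
    have h4 := (Finset.mem_filter.1 hz').2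
    unfold vx at h3 h4
    rw [Finset.sum_congr rfl fun i _ => h i] at h3
    linarith
  calc (B.card : ℝ) ≤ (((Finset.univ : Finset (Finset (Fin k))).biUnion
        (fun s => B.filter (fun z => vx z s = c))).card : ℝ) := by
        exact_mod_cast Finset.card_le_card h1
    _ ≤ ∑ s : Finset (Fin k), ((B.filter (fun z => vx z s = c)).card : ℝ) := by
        exact_mod_cast Finset.card_biUnion_le
    _ ≤ ∑ _s : Finset (Fin k), ((2 * N + 1) ^ k : ℝ) := Finset.sum_le_sum h2
    _ = 2 ^ k * (2 * N + 1) ^ k := by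
        rw [Finset.sum_const, nsmul_eq_mul, Finset.card_univ, Fintype.card_finset,
          Fintype.card_fin]
        push_cast
        ring

/-- translation by one step -/
theorem step_zero (k N : ℕ) (f : (Fin (k + 1) → ℤ) → ℝ) (F : ℝ) (hF : ∀ z, |f z| ≤ F) :
    |∑ z ∈ CB k N, f (z + Pi.single 0 1) - ∑ z ∈ CB k N, f z| ≤ 2 * (2 * N + 1) ^ k * F := by
  classical
  have h := shift_le (CB k N) (Pi.single 0 1) f F hF ((2 * N + 1) ^ k) ((2 * N + 1) ^ k) ?_ ?_
  · refine h.trans (le_of_eq ?_)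
    ring
  · refine card_le _ (fun z hz => (Finset.mem_filter.1 hz).1) ?_
    intro z hz z' hz' hzz
    have key : ∀ z z' : Fin (k + 1) → ℤ, z ∈ CB k N → z' ∈ CB k N →
        ¬ z + Pi.single 0 1 ∈ CB k N → (∀ i : Fin k, z i.succ = z' i.succ) → z' 0 ≤ z 0 := by
      intro z z' h1 h2 h3 h4
      by_contra hlt
      refine h3 (mem_CB.2 fun s => ?_)
      rw [vx_add, vx_single_zero]
      have h5 := mem_CB.1 h1 s
      have h6 := mem_CB.1 h2 s
      have h7 : vx z' s = vx z s + (z' 0 - z 0) := by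
        unfold vx
        rw [Finset.sum_congr rfl fun i _ => h4 i]
        ring
      omega
    rw [Finset.mem_filter] at hz hz'
    exact le_antisymm (key z' z hz'.1 hz.1 hz'.2 fun i => (hzz i).symm)
      (key z z' hz.1 hz'.1 hz.2 hzz)
  · refine card_le _ (fun z hz => (Finset.mem_filter.1 hz).1) ?_
    intro z hz z' hz' hzz
    have key : ∀ z z' : Fin (k + 1) → ℤ, z ∈ CB k N → z' ∈ CB k N →
        ¬ z - Pi.single 0 1 ∈ CB k N → (∀ i : Fin k, z i.succ = z' i.succ) → z 0 ≤ z' 0 := by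
      intro z z' h1 h2 h3 h4
      by_contra hlt
      refine h3 (mem_CB.2 fun s => ?_)
      rw [vx_sub, vx_single_zero]
      have h5 := mem_CB.1 h1 s
      have h6 := mem_CB.1 h2 s
      have h7 : vx z' s = vx z s + (z' 0 - z 0) := by
        unfold vx
        rw [Finset.sum_congr rfl fun i _ => h4 i]
        ring
      omega
    rw [Finset.mem_filter] at hz hz'
    exact le_antisymm (key z z' hz.1 hz'.1 hz.2 hzz)
      (key z' z hz'.1 hz.1 hz'.2 fun i => (hzz i).symm)

/-- translation by several steps -/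
theorem step_nat (k N : ℕ) (f : (Fin (k + 1) → ℤ) → ℝ) (F : ℝ) (hF : ∀ z, |f z| ≤ F) (n : ℕ) :
    |∑ z ∈ CB k N, f (z + Pi.single 0 (n : ℤ)) - ∑ z ∈ CB k N, f z| ≤
      2 * n * (2 * N + 1) ^ k * F := by
  induction n with
  | zero => simp
  | succ n ih =>
    have h1 := step_zero k N (fun z => f (z + Pi.single 0 (n : ℤ))) F (fun z => hF _)
    have h2 : ∀ z : Fin (k + 1) → ℤ, z + Pi.single 0 1 + Pi.single 0 (n : ℤ) =
        z + Pi.single 0 ((n + 1 : ℕ) : ℤ) := by
      intro z
      rw [add_assoc, ← Pi.single_add]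
      push_cast
      rw [add_comm (1 : ℤ)]
    simp only [h2] at h1
    have h3 := abs_sub_le (∑ z ∈ CB k N, f (z + Pi.single 0 ((n + 1 : ℕ) : ℤ)))
      (∑ z ∈ CB k N, f (z + Pi.single 0 (n : ℤ))) (∑ z ∈ CB k N, f z)
    have h4 : 2 * (((n + 1 : ℕ) : ℝ)) * (2 * N + 1) ^ k * F =
        2 * (2 * N + 1) ^ k * F + 2 * n * (2 * N + 1) ^ k * F := by
      push_cast
      ring
    rw [h4]
    linarith

theorem pf_CBT : T_CBT := by
  intro k N f F hF
  refine ⟨fun τ => ?_, fun i => ?_⟩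
  · rcases le_total 0 τ with h | h
    · obtain ⟨n, rfl⟩ := Int.eq_ofNat_of_zero_le h
      have h1 := step_nat k N f F hF n
      have h2 : |(((n : ℕ) : ℤ) : ℝ)| = (n : ℝ) := by
        rw [Int.cast_natCast]
        exact abs_of_nonneg (Nat.cast_nonneg n)
      rw [h2]
      exact h1
    · obtain ⟨n, hn⟩ := Int.eq_ofNat_of_zero_le (neg_nonneg.2 h)
      have hτ : τ = -(n : ℤ) := by rw [← hn]; ring
      subst hτ
      have h1 := step_nat k N (fun z => f (z + Pi.single 0 (-(n : ℤ)))) F (fun z => hF _) n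
      have h2 : ∀ z : Fin (k + 1) → ℤ, z + Pi.single 0 (n : ℤ) + Pi.single 0 (-(n : ℤ)) = z := by
        intro z
        rw [add_assoc, ← Pi.single_add, add_neg_cancel, Pi.single_zero, add_zero]
      simp only [h2] at h1
      have h3 : |(((-(n : ℤ)) : ℤ) : ℝ)| = (n : ℝ) := by
        push_cast
        rw [abs_neg]
        exact abs_of_nonneg (Nat.cast_nonneg n)
      rw [h3, abs_sub_comm]
      exact h1
  · classical
    have h := shift_le (CB k N) (Pi.single i 1) f F hF (2 ^ k * (2 * N + 1) ^ k)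
      (2 ^ k * (2 * N + 1) ^ k) ?_ ?_
    · refine h.trans (le_of_eq ?_)
      ring
    · refine card_vertex k N N _ (fun z hz => ?_)
      rw [Finset.mem_filter] at hz
      refine ⟨hz.1, ?_⟩
      by_contra hc
      refine hz.2 (mem_CB.2 fun s => ?_)
      have h1 := mem_CB.1 hz.1 s
      have h2 : vx z s ≠ N := fun h => hc ⟨s, h⟩
      rw [vx_add]
      rcases vx_single i s with h3 | h3 <;> rw [h3] <;> omega
    · refine card_vertex k N 1 _ (fun z hz => ?_)
      rw [Finset.mem_filter] at hz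
      refine ⟨hz.1, ?_⟩
      by_contra hc
      refine hz.2 (mem_CB.2 fun s => ?_)
      have h1 := mem_CB.1 hz.1 s
      have h2 : vx z s ≠ 1 := fun h => hc ⟨s, h⟩
      rw [vx_sub]
      rcases vx_single i s with h3 | h3 <;> rw [h3] <;> omega

end Pool.Agent.H3.UF
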